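import Pool.Agent.W37.SG.Stm2

/-!
MP_9a3597_al, project SG, task SG-JJ: the case `D ≠ 0` is impossible.
-/

set_option autoImplicit false

namespace Pool.Agent.W962.SG

open Pool.Agent.W37.SG

/-! ### Three dimensional quotients -/

theorem finrank_quot {F V : Type} [Field F] [AddCommGroup V] [Module F V] (I : Submodule F V)
    (u e₁ e₂ : V) (h1 : ∀ x, ∃ a b c : F, x - a • u - b • e₁ - c • e₂ ∈ I)
    (h2 : ∀ a b c : F, a • u + b • e₁ + c • e₂ ∈ I → a = 0 ∧ b = 0 ∧ c = 0) :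
    Module.finrank F (V ⧸ I) = 3 := by
  let v : Fin 3 → V ⧸ I := ![I.mkQ u, I.mkQ e₁, I.mkQ e₂]
  have hli : LinearIndependent F v := by
    rw [Fintype.linearIndependent_iff]
    intro g hg
    rw [Fin.sum_univ_three] at hg
    have h3 : g 0 • u + g 1 • e₁ + g 2 • e₂ ∈ I := by
      rw [← Submodule.Quotient.mk_eq_zero I]
      simpa [v] using hg
    obtain ⟨k1, k2, k3⟩ := h2 _ _ _ h3
    intro i
    fin_cases i
    · exact k1
    · exact k2
    · exact k3
  have hsp : ⊤ ≤ Submodule.span F (Set.range v) := by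
    rintro y -
    obtain ⟨x, rfl⟩ := Submodule.mkQ_surjective I y
    obtain ⟨a, b, c, habc⟩ := h1 x
    have h4 : I.mkQ x = a • v 0 + b • v 1 + c • v 2 := by
      have h5 : I.mkQ (x - a • u - b • e₁ - c • e₂) = 0 := by
        rw [Submodule.mkQ_apply, Submodule.Quotient.mk_eq_zero]
        exact habc
      rw [map_sub, map_sub, map_sub, map_smul, map_smul, map_smul] at h5
      have e0 : I.mkQ x = I.mkQ x - a • I.mkQ u - b • I.mkQ e₁ - c • I.mkQ e₂ +
        (a • I.mkQ u + b • I.mkQ e₁ + c • I.mkQ e₂) := by abel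
      rw [e0, h5, zero_add]
      rfl
    rw [h4]
    refine Submodule.add_mem _ (Submodule.add_mem _ ?_ ?_) ?_ <;>
      exact Submodule.smul_mem _ _ (Submodule.subset_span (Set.mem_range_self _))
  rw [Module.finrank_eq_card_basis (Module.Basis.mk hli hsp)]
  rfl

/-! ### The structure on `L` -/

section
variable {p : ℕ} [Fact p.Prime] {Q : Subgroup (Pm p)} {L : Submodule ℚ_[p] (Qf p)}
  {E : Pm p → Qf p} {D : Qf p → Qf p}

/-- `D` on `L` -/
noncomputable def DL (h : LieHyp p Q L E D) : Module.End ℚ_[p] L where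
  toFun f := ⟨D f, h.Dmem f f.2⟩
  map_add' f g := Subtype.ext (h.Dadd f f.2 g g.2)
  map_smul' c f := Subtype.ext (h.Dsmul c f f.2)

theorem DL_iter (h : LieHyp p Q L E D) (n : ℕ) (f : L) :
    (((DL h) ^ n) f : Qf p) = D^[n] (f : Qf p) := by
  induction n generalizing f with
  | zero => rfl
  | succ n ih =>
    rw [pow_succ, Module.End.mul_apply, ih, Function.iterate_succ_apply]
    rfl

theorem InI_iff (h : LieHyp p Q L E D) (x : ℕ → ZMod p) (f : L) :
    InI p D x (f : Qf p) ↔ ∀ n : ℕ, (((DL h) ^ n) f : Qf p) x = 0 := by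
  unfold InI
  refine forall_congr' fun n => ?_
  rw [DL_iter]

/-- the ideal `I_x` -/
noncomputable def Ix (h : LieHyp p Q L E D) (x : ℕ → ZMod p) : Submodule ℚ_[p] L where
  carrier := {f | InI p D x (f : Qf p)}
  add_mem' := by
    intro f g hf hg
    rw [Set.mem_ofPred_eq, InI_iff h] at hf hg ⊢
    intro n
    rw [map_add, Submodule.coe_add, Pi.add_apply, hf n, hg n, add_zero]
  zero_mem' := by
    rw [Set.mem_ofPred_eq, InI_iff h]
    intro n
    rw [map_zero]
    rfl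
  smul_mem' := by
    intro c f hf
    rw [Set.mem_ofPred_eq, InI_iff h] at hf ⊢
    intro n
    rw [map_smul, Submodule.coe_smul, Pi.smul_apply, hf n, smul_zero]

theorem mem_Ix (h : LieHyp p Q L E D) (x : ℕ → ZMod p) (f : L) :
    f ∈ Ix h x ↔ InI p D x (f : Qf p) := Iff.rfl

theorem brk_add_left (h : LieHyp p Q L E D) (f f' g : L) :
    brk p D ((f + f' : L) : Qf p) g = brk p D f g + brk p D f' g := by
  funext x
  show ((f + f' : L) : Qf p) x * D g x - (g : Qf p) x * D ((f + f' : L) : Qf p) x =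
    (f : Qf p) x * D g x - (g : Qf p) x * D f x + ((f' : Qf p) x * D g x - (g : Qf p) x * D f' x)
  have e1 : D ((f + f' : L) : Qf p) = D f + D f' := h.Dadd f f.2 f' f'.2
  rw [e1, Submodule.coe_add, Pi.add_apply, Pi.add_apply]
  ring

theorem brk_smul_left (h : LieHyp p Q L E D) (c : ℚ_[p]) (f g : L) :
    brk p D ((c • f : L) : Qf p) g = c • brk p D f g := by
  funext x
  show ((c • f : L) : Qf p) x * D g x - (g : Qf p) x * D ((c • f : L) : Qf p) x =
    c * ((f : Qf p) x * D g x - (g : Qf p) x * D f x)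
  have e1 : D ((c • f : L) : Qf p) = c • D f := h.Dsmul c f f.2
  rw [e1, Submodule.coe_smul, Pi.smul_apply, Pi.smul_apply, smul_eq_mul, smul_eq_mul]
  ring

theorem brk_anti (f g : Qf p) : brk p D f g = - brk p D g f := by
  funext x
  show f x * D g x - g x * D f x = - (g x * D f x - f x * D g x)
  ring

/-- the bracket on `L` -/
noncomputable def BL (h : LieHyp p Q L E D) : L →ₗ[ℚ_[p]] L →ₗ[ℚ_[p]] L :=
  LinearMap.mk₂ ℚ_[p] (fun f g => ⟨brk p D f g, (h.br f f.2 g g.2).1⟩)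
    (fun f f' g => Subtype.ext (brk_add_left h f f' g))
    (fun c f g => Subtype.ext (brk_smul_left h c f g))
    (fun f g g' => Subtype.ext (by
      show brk p D f ((g + g' : L) : Qf p) = brk p D f g + brk p D f g'
      rw [brk_anti, brk_add_left h, brk_anti (g : Qf p), brk_anti (g' : Qf p)]
      abel))
    (fun c f g => Subtype.ext (by
      show brk p D f ((c • g : L) : Qf p) = c • brk p D f g
      rw [brk_anti, brk_smul_left h, brk_anti (g : Qf p), smul_neg, neg_neg]))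

theorem BL_coe (h : LieHyp p Q L E D) (f g : L) : ((BL h f g : L) : Qf p) = brk p D f g := rfl

theorem BL_anti (h : LieHyp p Q L E D) (f g : L) : BL h f g = - BL h g f :=
  Subtype.ext (brk_anti _ _)

/-- the operator of `g` -/
noncomputable def AL (h : LieHyp p Q L E D) (g : Pm p) (hg : g ∈ Q) : L →ₗ[ℚ_[p]] L where
  toFun f := ⟨actF p E g f, h.act g hg f f.2⟩
  map_add' f f' := Subtype.ext (by
    funext x
    show ((f : Qf p) (g x) + (f' : Qf p) (g x)) * E g x =
      (f : Qf p) (g x) * E g x + (f' : Qf p) (g x) * E g x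
    ring)
  map_smul' c f := Subtype.ext (by
    funext x
    show (c * (f : Qf p) (g x)) * E g x = c * ((f : Qf p) (g x) * E g x)
    ring)

theorem AL_coe (h : LieHyp p Q L E D) (g : Pm p) (hg : g ∈ Q) (f : L) :
    ((AL h g hg f : L) : Qf p) = actF p E g f := rfl

theorem AL_mem (h : LieHyp p Q L E D) (g : Pm p) (hg : g ∈ Q) : AL h g hg ∈ Ops p Q L E :=
  ⟨g, hg, fun _ _ => rfl⟩

/-- the trace form -/
noncomputable def KL (h : LieHyp p Q L E D) : L →ₗ[ℚ_[p]] L →ₗ[ℚ_[p]] ℚ_[p] :=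
  LinearMap.mk₂ ℚ_[p] (fun f g => LinearMap.trace ℚ_[p] L (BL h f ∘ₗ BL h g))
    (fun f f' g => by rw [map_add, LinearMap.add_comp, map_add])
    (fun c f g => by rw [map_smul, LinearMap.smul_comp, map_smul])
    (fun f g g' => by rw [map_add, LinearMap.comp_add, map_add])
    (fun c f g => by rw [map_smul, LinearMap.comp_smul, map_smul])

theorem KL_apply (h : LieHyp p Q L E D) (f g : L) :
    KL h f g = LinearMap.trace ℚ_[p] L (BL h f ∘ₗ BL h g) := rfl

theorem KL_symm (h : LieHyp p Q L E D) (f g : L) : KL h f g = KL h g f := by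
  rw [KL_apply, KL_apply]
  exact LinearMap.trace_mul_comm ℚ_[p] (BL h f) (BL h g)

/-- operators preserve the trace form -/
theorem KL_inv (hINV : S_INV) (h : LieHyp p Q L E D) (A A' : L →ₗ[ℚ_[p]] L)
    (hA : A ∈ Ops p Q L E) (hAA : A ∘ₗ A' = LinearMap.id) (f g : L) :
    KL h (A f) (A g) = KL h f g := by
  have := h.fd
  obtain ⟨γ, hγ, hAγ⟩ := hA
  have hAf : ∀ f : L, ((A f : L) : Qf p) = actF p E γ f := fun f => funext fun x => hAγ f x
  have hA'A : A' ∘ₗ A = LinearMap.id := by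
    have := (mul_eq_one_comm (M := Module.End ℚ_[p] L) (a := A) (b := A')).mp hAA
    exact this
  have hB : ∀ f g : L, BL h (A f) (A g) = A (BL h f g) := by
    intro f g
    refine Subtype.ext ?_
    rw [BL_coe, hAf, hAf, hAf, BL_coe]
    exact (hINV p Q L E D h).2.2.1 γ hγ f f.2 g g.2
  have hBc : ∀ f : L, BL h (A f) = A ∘ₗ (BL h f ∘ₗ A') := by
    intro f
    refine LinearMap.ext fun g => ?_
    have h1 : A (A' g) = g := by
      have := LinearMap.congr_fun hAA g
      exact this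
    rw [LinearMap.comp_apply, LinearMap.comp_apply, ← hB, h1]
  rw [KL_apply, KL_apply, hBc, hBc]
  have e1 : (A ∘ₗ (BL h f ∘ₗ A')) ∘ₗ (A ∘ₗ (BL h g ∘ₗ A')) =
      A ∘ₗ ((BL h f ∘ₗ BL h g) ∘ₗ A') := by
    refine LinearMap.ext fun x => ?_
    have h2 : ∀ y, A' (A y) = y := fun y => LinearMap.congr_fun hA'A y
    simp only [LinearMap.comp_apply, h2]
  rw [e1]
  have e2 : LinearMap.trace ℚ_[p] L (A ∘ₗ ((BL h f ∘ₗ BL h g) ∘ₗ A')) =
      LinearMap.trace ℚ_[p] L (((BL h f ∘ₗ BL h g) ∘ₗ A') ∘ₗ A) :=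
    LinearMap.trace_mul_comm ℚ_[p] A ((BL h f ∘ₗ BL h g) ∘ₗ A')
  rw [e2, LinearMap.comp_assoc, hA'A, LinearMap.comp_id]

/-! ### Local constancy -/

theorem Ix_closed (h : LieHyp p Q L E D) (x : ℕ → ZMod p) (f : L) (hf : f ∉ Ix h x) :
    ∃ k : ℕ, ∀ y, Agr p k x y → f ∉ Ix h y := by
  rw [mem_Ix, InI_iff h] at hf
  push Not at hf
  obtain ⟨n, hn⟩ := hf
  set F : L := ((DL h) ^ n) f with hF
  have hpos : 0 < ‖(F : Qf p) x‖ := norm_pos_iff.mpr hn
  have hp1 : (1 : ℝ) < p := by exact_mod_cast (Fact.out : p.Prime).one_lt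
  obtain ⟨R, hR⟩ := exists_pow_lt_of_lt_one hpos (inv_lt_one_of_one_lt₀ hp1)
  obtain ⟨k, hk⟩ := h.cont F F.2 R
  refine ⟨k, fun y hy hfy => ?_⟩
  rw [mem_Ix, InI_iff h] at hfy
  have h1 := hk x y hy
  rw [hF] at h1
  rw [hfy n, sub_zero, ← hF] at h1
  have h2 : (p : ℝ) ^ (-(R : ℤ)) = ((p : ℝ)⁻¹) ^ R := by
    rw [zpow_neg, zpow_natCast, inv_pow]
  rw [h2] at h1
  linarith

theorem Ix_loc (h : LieHyp p Q L E D) (hfin : (Set.range (Ix h)).Finite)
    (hdim : ∀ x y, Ix h y ≤ Ix h x → Ix h y = Ix h x) (x : ℕ → ZMod p) :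
    ∃ k : ℕ, ∀ y, Agr p k x y → Ix h y = Ix h x := by
  classical
  have h1 : ∀ I ∈ Set.range (Ix h), I ≠ Ix h x → ∃ k : ℕ, ∀ y, Agr p k x y → Ix h y ≠ I := by
    rintro _ ⟨z, rfl⟩ hne
    have h2 : ¬ Ix h z ≤ Ix h x := fun hle => hne (hdim x z hle)
    obtain ⟨f, hf1, hf2⟩ := SetLike.not_le_iff_exists.mp h2
    obtain ⟨k, hk⟩ := Ix_closed h x f hf2
    refine ⟨k, fun y hy he => hk y hy ?_⟩
    rw [he]
    exact hf1
  choose! kk hkk using h1
  refine ⟨hfin.toFinset.sup kk, fun y hy => ?_⟩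
  by_contra hne
  have hmem : Ix h y ∈ Set.range (Ix h) := Set.mem_range_self y
  refine hkk _ hmem hne y (fun j hj => hy j ?_) rfl
  exact lt_of_lt_of_le hj (Finset.le_sup (f := kk) (hfin.mem_toFinset.mpr hmem))

/-- uniform local constancy from compactness -/
theorem unif {β : Type*} (F : (ℕ → ZMod p) → β)
    (hF : ∀ x, ∃ k : ℕ, ∀ y, Agr p k x y → F y = F x) :
    ∃ k : ℕ, ∀ x y, Agr p k x y → F x = F y := by
  classical
  have : NeZero p := ⟨(Fact.out : p.Prime).ne_zero⟩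
  let _ : TopologicalSpace (ZMod p) := ⊥
  have : DiscreteTopology (ZMod p) := ⟨rfl⟩
  have : CompactSpace (ℕ → ZMod p) := inferInstance
  choose kk hkk using hF
  obtain ⟨t, ht⟩ := CompactSpace.elim_nhds_subcover (fun x : ℕ → ZMod p => {y | Agr p (kk x) x y})
    (fun x => by
      have h1 : Set.pi (Set.Iio (kk x)) (fun j => {x j}) ∈ nhds x :=
        set_pi_mem_nhds (Set.finite_Iio _) fun j _ => mem_nhds_discrete.mpr rfl
      refine Filter.mem_of_superset h1 fun y hy j hj => ?_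
      exact (hy j hj).symm)
  refine ⟨t.sup kk, fun x y hxy => ?_⟩
  have hx : x ∈ (⊤ : Set (ℕ → ZMod p)) := trivial
  rw [← ht] at hx
  obtain ⟨z, hz, hxz⟩ := Set.mem_iUnion₂.mp hx
  have hle : kk z ≤ t.sup kk := Finset.le_sup hz
  have hxz' : Agr p (kk z) z x := hxz
  rw [hkk z x hxz', hkk z y fun j hj => (hxz' j hj).trans (hxy j (lt_of_lt_of_le hj hle))]

end

/-! ### Counting -/

theorem Agr_tri {p : ℕ} {g : Pm p} (hg : IsTri p g) {k : ℕ} {x y : ℕ → ZMod p}
    (h : Agr p k x y) : Agr p k (g x) (g y) := by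
  intro i hi
  have h1 := hg i x y fun j hj => h j (hj.trans hi)
  rw [h i hi] at h1
  exact sub_left_injective h1

theorem Agr_ext0 (p k : ℕ) (x : ℕ → ZMod p) : Agr p k (ext0 p k fun i => x i) x := by
  intro j hj
  unfold ext0
  rw [dif_pos hj]

/-- a function on the tree that is compatible with `Q` takes `r ∣ p^k` values -/
theorem count {p : ℕ} [Fact p.Prime] (hD4 : S_D4) (hTR : S_TRANS) (Q : Subgroup (Pm p))
    (htri : ∀ g ∈ Q, IsTri p g) (htau : ∀ v, ∃ g ∈ Q, tau p v g ≠ 0) {β : Type*}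
    (F : (ℕ → ZMod p) → β) (hF : ∀ g ∈ Q, ∀ x y, F x = F y → F (g x) = F (g y)) (k : ℕ)
    (hk : ∀ x y, Agr p k x y → F x = F y) : (Set.range F).ncard ∣ p ^ k := by
  classical
  have : NeZero p := ⟨(Fact.out : p.Prime).ne_zero⟩
  set G : (Fin k → ZMod p) → β := fun w => F (ext0 p k w) with hG
  have hFG : ∀ x, G (fun i => x i) = F x := fun x => hk _ _ (Agr_ext0 p k x)
  have hrange : Set.range F = ((Finset.univ.image G : Finset β) : Set β) := by
    rw [Finset.coe_image, Finset.coe_univ, Set.image_univ]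
    refine Set.Subset.antisymm ?_ ?_
    · rintro _ ⟨x, rfl⟩
      exact ⟨_, hFG x⟩
    · rintro _ ⟨w, rfl⟩
      exact ⟨_, rfl⟩
  rw [hrange, Set.ncard_coe_finset]
  have hle : ∀ x0 y0, (Finset.univ.filter fun w => G w = F x0).card ≤
      (Finset.univ.filter fun w => G w = F y0).card := by
    intro x0 y0
    obtain ⟨g, hg, hgk⟩ := hTR hD4 p Q htri htau k x0 y0
    refine Finset.card_le_card_of_injOn (fun w i => g (ext0 p k w) i) ?_ ?_
    · intro w hw
      have hw1 : G w = F x0 := (Finset.mem_filter.mp hw).2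
      refine Finset.mem_coe.mpr (Finset.mem_filter.mpr ⟨Finset.mem_univ _, ?_⟩)
      show G (fun i : Fin k => g (ext0 p k w) i) = F y0
      rw [hFG (g (ext0 p k w)), hF g hg _ x0 hw1]
      exact hk _ _ hgk
    · intro w _ w' _ hww
      have h1 : Agr p k (g (ext0 p k w)) (g (ext0 p k w')) := by
        intro j hj
        exact congrFun hww ⟨j, hj⟩
      have h2 := Agr_tri ((hD4 p g g (htri g hg) (htri g hg)).2.1) h1
      have h5 : ∀ z, g⁻¹ (g z) = z := fun z => g.symm_apply_apply z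
      rw [h5, h5] at h2
      funext i
      have h3 := h2 i i.2
      unfold ext0 at h3
      rw [dif_pos i.2, dif_pos i.2] at h3
      exact h3
  have hcard := Finset.card_eq_sum_card_fiberwise (f := G) (s := Finset.univ)
    (t := Finset.univ.image G) (fun w _ => Finset.mem_coe.mpr
      (Finset.mem_image_of_mem _ (Finset.mem_univ w)))
  have hc : (Finset.univ : Finset (Fin k → ZMod p)).card = p ^ k := by
    rw [Finset.card_univ, Fintype.card_fun, ZMod.card, Fintype.card_fin]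
  rw [hc] at hcard
  have hconst : ∀ b ∈ Finset.univ.image G, (Finset.univ.filter fun w => G w = b).card =
      (Finset.univ.filter fun w => G w = F 0).card := by
    intro b hb
    obtain ⟨w, -, rfl⟩ := Finset.mem_image.mp hb
    exact le_antisymm (hle (ext0 p k w) 0) (hle 0 (ext0 p k w))
  rw [Finset.sum_congr rfl hconst, Finset.sum_const, smul_eq_mul] at hcard
  exact ⟨_, hcard⟩

/-- **SG-JJ** -/
theorem main : S_JJ := by
  intro hD4 hTR hINV hTAY hJ1 hALG hPAR p _ Q α L E D C hp2 htri htau h hC hDne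
  have := h.fd
  obtain ⟨i1, i2, i3, i4⟩ := hINV p Q L E D h
  have hT := hTAY hD4 hTR hJ1 hINV p Q L E D htri htau h hDne
  set u : L := ⟨oneF p, h.one_mem⟩ with hu
  -- the ideals
  have hX : ∀ x, (∀ f ∈ Ix h x, ∀ g, BL h f g ∈ Ix h x) ∧ ∃ (u e₁ e₂ : L) (β : ℚ_[p]),
      (∀ x', ∃ a b c : ℚ_[p], x' - a • u - b • e₁ - c • e₂ ∈ Ix h x) ∧
      (∀ a b c : ℚ_[p], a • u + b • e₁ + c • e₂ ∈ Ix h x → a = 0 ∧ b = 0 ∧ c = 0) ∧
      BL h u e₁ - u - β • e₂ ∈ Ix h x ∧ BL h u e₂ - (2 : ℚ_[p]) • e₁ ∈ Ix h x ∧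
      BL h e₁ e₂ - e₂ ∈ Ix h x := by
    intro x
    refine ⟨fun f hf g => i1 x f f.2 hf g g.2, ?_⟩
    obtain ⟨e₁, he₁, e₂, he₂, β, k1, k2, k3, k4, k5⟩ := hT x
    exact ⟨u, ⟨e₁, he₁⟩, ⟨e₂, he₂⟩, β, fun f => k1 f f.2, k2, k3, k4, k5⟩
  have hdim : ∀ x y, Ix h y ≤ Ix h x → Ix h y = Ix h x := by
    intro x y hle
    have h3 : ∀ z, Module.finrank ℚ_[p] (L ⧸ Ix h z) = 3 := by
      intro z
      obtain ⟨-, u, e₁, e₂, β, k1, k2, -⟩ := hX z
      exact finrank_quot _ u e₁ e₂ k1 k2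
    refine Submodule.eq_of_le_of_finrank_eq hle ?_
    have h4 := Submodule.finrank_quotient_add_finrank (Ix h x)
    have h5 := Submodule.finrank_quotient_add_finrank (Ix h y)
    rw [h3] at h4 h5
    omega
  obtain ⟨hfin, hrank, f0, g0, hfg⟩ := hALG ℚ_[p] L (BL h) (BL_anti h) (Set.range (Ix h))
    ⟨_, Set.mem_range_self (fun _ => 0)⟩ (by
      intro f hf
      refine Subtype.ext (funext fun x => ?_)
      have h1 : InI p D x (f : Qf p) := hf _ (Set.mem_range_self x)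
      exact h1 0) (by
      rintro _ ⟨x, rfl⟩
      exact hX x)
  obtain ⟨b, -⟩ := hC.basis
  rw [Module.finrank_eq_card_basis b, Fintype.card_fin] at hrank
  obtain ⟨k, hk⟩ := unif (Ix h) (Ix_loc h hfin hdim)
  have htrans : ∀ g ∈ Q, ∀ x y, Ix h x = Ix h y → Ix h (g x) = Ix h (g y) := by
    intro g hg x y hxy
    ext f
    rw [mem_Ix, mem_Ix, i4 g hg x f f.2, i4 g hg y f f.2]
    have h1 : AL h g hg f ∈ Ix h x ↔ AL h g hg f ∈ Ix h y := by rw [hxy]
    exact h1
  have hdvd := count hD4 hTR Q htri htau (Ix h) htrans k hk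
  have hpodd : Odd p := (Fact.out : p.Prime).odd_of_ne_two hp2
  have hr : Odd (Set.range (Ix h)).ncard := Odd.of_dvd_nat (hpodd.pow) hdvd
  have hα : Odd α := by
    rw [hrank]
    exact Odd.mul (by decide) hr
  -- the trace form
  have hKinv : ∀ A ∈ Ops p Q L E, ∀ f g, KL h (A f) (A g) = KL h f g := by
    intro A hA f g
    obtain ⟨A', -, hAA⟩ := hC.inv A hA
    exact KL_inv hINV h A A' hA hAA f g
  have hst : ∀ g ∈ Q, ∀ f ∈ (LinearMap.ker (KL h)).map L.subtype,
      actF p E g f ∈ (LinearMap.ker (KL h)).map L.subtype := by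
    rintro g hg _ ⟨f, hf, rfl⟩
    refine ⟨AL h g hg f, ?_, rfl⟩
    have hf' : KL h f = 0 := LinearMap.mem_ker.mp hf
    refine LinearMap.mem_ker.mpr (LinearMap.ext fun v => ?_)
    obtain ⟨A', -, hAA⟩ := hC.inv _ (AL_mem h g hg)
    have h1 : AL h g hg (A' v) = v := LinearMap.congr_fun hAA v
    rw [← h1, hKinv _ (AL_mem h g hg), hf']
    rfl
  refine hPAR p α L C (Ops p Q L E) hp2 hα hC (KL h) (KL_symm h) hKinv ?_
  rcases h.irr ((LinearMap.ker (KL h)).map L.subtype) (Submodule.map_subtype_le _ _) hst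
    with hW | hW
  · intro f hf
    have h1 : f ∈ LinearMap.ker (KL h) := by
      rw [LinearMap.mem_ker]
      exact LinearMap.ext hf
    have h2 : (f : Qf p) ∈ (LinearMap.ker (KL h)).map L.subtype := ⟨f, h1, rfl⟩
    rw [hW, Submodule.mem_bot] at h2
    exact Subtype.ext h2
  · exfalso
    have h1 : (f0 : Qf p) ∈ (LinearMap.ker (KL h)).map L.subtype := by rw [hW]; exact f0.2
    obtain ⟨f1, hf1, he⟩ := h1
    have h2 : f1 = f0 := Subtype.ext he
    rw [h2] at hf1
    have h3 : KL h f0 = 0 := LinearMap.mem_ker.mp hf1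
    apply hfg
    rw [← KL_apply, h3, LinearMap.zero_apply]

end Pool.Agent.W962.SG
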